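import Mathlib
import Pool.Agent.Q43.MW.Fin

set_option autoImplicit false

/-!
# Waring's problem with real coefficients: `2 k + 1` powers suffice for almost all coefficients
-/

namespace Pool.Agent.Results.MP_efcac8_nt.AlmostAllCoefficients

open MeasureTheory

/-- Let `k i ≥ 1` be exponents with `∑ 1 / k i > 2`, for example `s ≥ 2 k + 1` exponents equal to `k`.
For almost all vectors `l` of positive real coefficients and every `δ < (∑ 1 / k i) / 2 - 1`, EVERY
sufficiently large real number `y` satisfies `|∑ l i * x i ^ k i - y| < y ^ (-δ)` for some positive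
integers `x i`. -/
theorem result {s : ℕ} (k : Fin s → ℕ) (hk : ∀ i, 1 ≤ k i) (hσ : 2 < ∑ i, 1 / (k i : ℝ)) :
    ∀ᵐ l : Fin s → ℝ, (∀ i, 0 < l i) → ∀ δ : ℝ, δ < (∑ i, 1 / (k i : ℝ)) / 2 - 1 →
      ∃ Y₀ : ℝ, ∀ y : ℝ, Y₀ ≤ y → ∃ x : Fin s → ℕ, (∀ i, 1 ≤ x i) ∧
        |∑ i, l i * (x i : ℝ) ^ k i - y| < y ^ (-δ) := by
  rcases s with _ | n
  · simp at hσ
    linarith
  · have e : ∑ i, 1 / (k i : ℝ) = Pool.Agent.Q43.MW.sig k := by
      unfold Pool.Agent.Q43.MW.sig
      simp [one_div]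
    rw [e] at hσ ⊢
    exact Pool.Agent.Q43.MW.all_large hk hσ

end Pool.Agent.Results.MP_efcac8_nt.AlmostAllCoefficients
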