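import Mathlib
import Pool.Agent.Q43.MW.Fl7

set_option autoImplicit false

/-!
# Sums of integer parts of powers, for almost all exponents
-/

namespace Pool.Agent.Results.MP_efcac8_nt.IntegerPartsAlmostAllExponents

open MeasureTheory

/-- Let `l_1, ..., l_s` be positive reals. For almost all exponents `c_1, ..., c_s > 1` with
`1 / c_1 + ... + 1 / c_s > 2`, every large natural number is
`⌊l_1 x_1 ^ c_1⌋ + ... + ⌊l_s x_s ^ c_s⌋` for some positive integers `x_1, ..., x_s`. -/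
theorem result {s : ℕ} (l : Fin s → ℝ) (hl : ∀ i, 0 < l i) :
    ∀ᵐ c : Fin s → ℝ, (∀ i, 1 < c i) → 2 < ∑ i, (c i)⁻¹ →
      ∃ N : ℕ, ∀ m : ℕ, N ≤ m → ∃ x : Fin s → ℕ, (∀ i, 1 ≤ x i) ∧ ∑ i, ⌊l i * (x i : ℝ) ^ c i⌋₊ = m := by
  rcases s with _ | n
  · refine Filter.Eventually.of_forall fun c _ h => ?_
    simp at h
    linarith
  · filter_upwards [Pool.Agent.Q43.MW.all_TT hl] with c hc h1 h2
    obtain ⟨N₀, hN₀⟩ := hc h1 h2
    refine ⟨⌈N₀⌉₊, fun m hm => ?_⟩
    obtain ⟨x, hx1, hx2⟩ := hN₀ (m : ℤ) (by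
      have : (⌈N₀⌉₊ : ℝ) ≤ m := by exact_mod_cast hm
      push_cast
      exact (Nat.le_ceil N₀).trans this)
    refine ⟨x, hx1, ?_⟩
    have h3 : ((∑ i, ⌊l i * (x i : ℝ) ^ c i⌋₊ : ℕ) : ℤ) = m := by
      rw [← hx2]
      push_cast
      refine Finset.sum_congr rfl fun i _ => ?_
      rw [← Int.natCast_floor_eq_floor]
      have := (hl i).le
      positivity
    exact_mod_cast h3

end Pool.Agent.Results.MP_efcac8_nt.IntegerPartsAlmostAllExponents
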